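import Mathlib
import Pool.Agent.H.MP_b6cdd3_co.Count

set_option autoImplicit false

open SimpleGraph

namespace Pool.Agent.Results.MP_b6cdd3_co.Bipartite

/-- A pattern: a graph on `Fin m`, ordered linearly or circularly by `0, 1, …, m - 1`. -/
abbrev Pat := Σ m : ℕ, SimpleGraph (Fin m)

/-- `G` has a linear ordering avoiding all linearly ordered patterns of `F`. -/
def LinFree (F : Set Pat) {V : Type} (G : SimpleGraph V) : Prop :=
  ∃ o : LinearOrder V, ∀ H ∈ F, ∀ φ : Fin H.1 → V, (∀ i j, i < j → o.lt (φ i) (φ j)) →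
    ¬ ∀ i j, H.2.Adj i j ↔ G.Adj (φ i) (φ j)

/-- The cyclic order obtained by closing up the linear order `r`. -/
def Cyc {V : Type} (r : V → V → Prop) (a b c : V) : Prop :=
  (r a b ∧ r b c) ∨ (r b c ∧ r c a) ∨ (r c a ∧ r a b)

/-- `G` has a circular ordering avoiding all circularly ordered patterns of `F`. -/
def CircFree (F : Set Pat) {V : Type} (G : SimpleGraph V) : Prop :=
  ∃ o : LinearOrder V, ∀ H ∈ F, ∀ φ : Fin H.1 → V, Function.Injective φ →
    (∀ i j l, i < j → j < l → Cyc o.lt (φ i) (φ j) (φ l)) →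
    ¬ ∀ i j, H.2.Adj i j ↔ G.Adj (φ i) (φ j)

lemma lin : ∃ F : Set Pat, F.Finite ∧ ∀ (V : Type) [Fintype V] (G : SimpleGraph V),
    G.Colorable 2 ↔ LinFree F G := by
  classical
  refine ⟨Sigma.mk 3 '' {H | H.Adj 0 1 ∧ H.Adj 1 2}, (Set.toFinite _).image _, ?_⟩
  intro V _ G
  constructor
  · rintro ⟨c⟩
    let e := Fintype.equivFin V
    refine ⟨LinearOrder.lift' (fun v => toLex (c v, e v)) ?_, ?_⟩
    · intro u v h
      exact e.injective (congrArg (fun x => (ofLex x).2) h)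
    · rintro _ ⟨H, ⟨h1, h2⟩, rfl⟩ φ hφ hA
      have a1 := c.valid ((hA 0 1).1 h1)
      have a2 := c.valid ((hA 1 2).1 h2)
      have b1 : toLex (c (φ 0), e (φ 0)) < toLex (c (φ 1), e (φ 1)) := hφ 0 1 (show (0 : Fin 3) < 1 by decide)
      have b2 : toLex (c (φ 1), e (φ 1)) < toLex (c (φ 2), e (φ 2)) := hφ 1 2 (show (1 : Fin 3) < 2 by decide)
      rw [Prod.Lex.toLex_lt_toLex] at b1 b2
      simp only [a1, a2, false_and, or_false] at b1 b2
      have := (c (φ 2)).2
      omega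
  · rintro ⟨o, ho⟩
    have key : ∀ u v w, u < v → v < w → G.Adj u v → ¬ G.Adj v w := by
      intro u v w h1 h2 h3 h4
      refine ho ⟨3, G.comap ![u, v, w]⟩ ⟨_, ⟨h3, h4⟩, rfl⟩ ![u, v, w] ?_ (fun _ _ => Iff.rfl)
      intro i j hij
      have h5 : ∀ i j : Fin 3, i < j → (i = 0 ∧ j = 1) ∨ (i = 0 ∧ j = 2) ∨ (i = 1 ∧ j = 2) := by
        decide
      rcases h5 i j hij with ⟨rfl, rfl⟩ | ⟨rfl, rfl⟩ | ⟨rfl, rfl⟩
      · exact h1
      · exact h1.trans h2
      · exact h2
    have key2 : ∀ u v, u < v → G.Adj u v →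
        (if ∃ x, x < u ∧ G.Adj x u then (1 : Fin 2) else 0) ≠
        (if ∃ x, x < v ∧ G.Adj x v then (1 : Fin 2) else 0) := by
      intro u v h1 h2
      rw [if_neg (fun ⟨x, h3, h4⟩ => key x u v h3 h1 h4 h2), if_pos ⟨u, h1, h2⟩]
      decide
    refine ⟨Coloring.mk (fun v => if ∃ x, x < v ∧ G.Adj x v then 1 else 0) ?_⟩
    intro u v h
    rcases lt_or_gt_of_ne h.ne with h1 | h1
    · exact key2 u v h1 h
    · exact (key2 v u h1 h.symm).symm

def VV (n : ℕ) : Type := Bool × Fin n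

instance (n : ℕ) : Fintype (VV n) := inferInstanceAs (Fintype (Bool × Fin n))

/-- A bipartite graph all of whose linear orders contain every two-block pattern. -/
lemma ordering (k : ℕ) (hk : 1 ≤ k) : ∃ (V : Type) (_ : Fintype V) (G : SimpleGraph V),
    G.Colorable 2 ∧ ∀ (_ : LinearOrder V) (h : Fin k → Fin k → Prop),
      ∃ a b : Fin k → V, StrictMono a ∧ StrictMono b ∧ (∀ i j, a i < b j) ∧
        (∀ i j, ¬ G.Adj (a i) (a j)) ∧ (∀ i j, ¬ G.Adj (b i) (b j)) ∧
        ∀ i j, G.Adj (a i) (b j) ↔ h i j := by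
  classical
  obtain ⟨t, ht, hex⟩ := Pool.Agent.H.MP_b6cdd3_co.exists_matrix k hk
  set M := t * k with hM
  obtain ⟨g, hg⟩ := hex
  have hM1 : 1 ≤ M := Nat.mul_pos ht hk
  let G : SimpleGraph (VV (2 * M)) :=
    { Adj := fun u v => (u.1 = false ∧ v.1 = true ∧ g (u.2, v.2) = true) ∨
        (v.1 = false ∧ u.1 = true ∧ g (v.2, u.2) = true)
      symm := ⟨fun _ _ h => h.symm⟩
      loopless := ⟨fun u h => by rcases h with h | h <;> simp [h.1] at h⟩ }
  refine ⟨_, inferInstance, G, ?_, fun o h => ?_⟩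
  · refine ⟨Coloring.mk (fun v => if v.1 then 1 else 0) ?_⟩
    rintro u v (h | h) <;> simp [h.1, h.2.1]
  have hc : ∀ s : Bool, (Finset.univ.filter (fun v : VV (2 * M) => v.1 = s)).card
      = 2 * M := by
    intro s
    have : Finset.univ.filter (fun v : Bool × Fin (2 * M) => v.1 = s) = {s} ×ˢ Finset.univ := by
      ext ⟨v1, v2⟩; simp [eq_comm]
    show (Finset.univ.filter (fun v : Bool × Fin (2 * M) => v.1 = s)).card = 2 * M
    rw [this]; simp
  let e : Bool → Fin (2 * M) ↪o VV (2 * M) := fun s => Finset.orderEmbOfFin _ (hc s)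
  have he : ∀ s i, (e s i).1 = s := fun s i =>
    (Finset.mem_filter.1 (Finset.orderEmbOfFin_mem _ (hc s) i)).2
  let lo : Fin t × Fin k → Fin (2 * M) := fun x => ⟨finProdFinEquiv x, by
    have := (finProdFinEquiv x).2; omega⟩
  let hi : Fin t × Fin k → Fin (2 * M) := fun x => ⟨M + finProdFinEquiv x, by
    have := (finProdFinEquiv x).2; omega⟩
  have inj : ∀ s (f : Fin t × Fin k → Fin (2 * M)), Function.Injective f →
      Function.Injective (fun x => (e s (f x)).2) := by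
    intro s f hf x y hxy
    exact hf ((e s).injective (Prod.ext ((he _ _).trans (he _ _).symm) hxy))
  have ilo : Function.Injective lo := fun x y hxy =>
    finProdFinEquiv.injective (Fin.ext (by simpa [lo] using hxy))
  have ihi : Function.Injective hi := fun x y hxy =>
    finProdFinEquiv.injective (Fin.ext (by simpa [hi] using hxy))
  have main : ∀ s : Bool, e s ⟨M - 1, by omega⟩ < e (!s) ⟨M, by omega⟩ → ∀ p q : Fin t,
      StrictMono (fun i => e s (lo (p, i))) ∧ StrictMono (fun j => e (!s) (hi (q, j))) ∧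
      (∀ i j, e s (lo (p, i)) < e (!s) (hi (q, j))) ∧
      (∀ i j, ¬ G.Adj (e s (lo (p, i))) (e s (lo (p, j)))) ∧
      (∀ i j, ¬ G.Adj (e (!s) (hi (q, i))) (e (!s) (hi (q, j)))) := by
    intro s hs p q
    refine ⟨fun i j hij => (e s).strictMono ?_, fun i j hij => (e (!s)).strictMono ?_,
      fun i j => ?_, fun i j => ?_, fun i j => ?_⟩
    · show i.val + k * p.val < j.val + k * p.val
      omega
    · show M + (i.val + k * q.val) < M + (j.val + k * q.val)
      omega
    · refine lt_of_le_of_lt ((e s).monotone ?_) (lt_of_lt_of_le hs ((e (!s)).monotone ?_))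
      · have := (finProdFinEquiv (p, i)).2
        simp only [lo, Fin.le_def]; omega
      · simp only [hi, Fin.le_def]; omega
    · simp only [G, he]; cases s <;> simp
    · simp only [G, he]; cases s <;> simp
  by_cases hs : e false ⟨M - 1, by omega⟩ < e true ⟨M, by omega⟩
  · obtain ⟨p, q, hpq⟩ := hg (fun x => decide (h x.1 x.2)) _ _ (inj false lo ilo) (inj true hi ihi)
    obtain ⟨m1, m2, m3, m4, m5⟩ := main false hs p q
    refine ⟨_, _, m1, m2, m3, m4, m5, fun i j => ?_⟩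
    simp only [G, he, Bool.not_false]
    simp [hpq i j]
  · have hs2 : e true ⟨M - 1, by omega⟩ < e false ⟨M, by omega⟩ := by
      refine lt_of_lt_of_le ((e true).strictMono ?_) ((not_lt.1 hs).trans ((e false).monotone ?_))
      · simp only [Fin.lt_def]; omega
      · simp only [Fin.le_def]; omega
    obtain ⟨q, p, hpq⟩ := hg (fun x => decide (h x.2 x.1)) _ _ (inj false hi ihi) (inj true lo ilo)
    obtain ⟨m1, m2, m3, m4, m5⟩ := main true hs2 p q
    refine ⟨_, _, m1, m2, m3, m4, m5, fun i j => ?_⟩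
    simp only [G, he, Bool.not_true]
    simp [hpq j i]

def Odd' (k : ℕ) (hk : 1 ≤ k) : SimpleGraph (Fin (2 * k + 1)) where
  Adj x y := x.val + k = y ∨ x.val + k + 1 = y ∨ y.val + k = x ∨ y.val + k + 1 = x
  symm := ⟨fun _ _ h => by omega⟩
  loopless := ⟨fun _ h => by omega⟩

lemma odd_not (k : ℕ) (hk : 1 ≤ k) : ¬ (Odd' k hk).Colorable 2 := by
  rintro ⟨c⟩
  have h1 : ∀ i (hi : i ≤ k), c ⟨k + i, by omega⟩ = c ⟨k, by omega⟩ := by
    intro i
    induction i with
    | zero => intro _; rfl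
    | succ i ih =>
      intro hi
      have a1 : c ⟨i, by omega⟩ ≠ c ⟨k + i, by omega⟩ := c.valid (by simp [Odd']; omega)
      have a2 : c ⟨i, by omega⟩ ≠ c ⟨k + (i + 1), by omega⟩ := c.valid (by simp [Odd']; omega)
      rw [← ih (by omega)]
      omega
  exact c.valid (show (Odd' k hk).Adj ⟨k + k, by omega⟩ ⟨k, by omega⟩ by simp [Odd']) (h1 k le_rfl)

lemma circ : ¬ ∃ F : Set Pat, F.Finite ∧ ∀ (V : Type) [Fintype V] (G : SimpleGraph V),
    G.Colorable 2 ↔ CircFree F G := by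
  classical
  rintro ⟨F, hF, hP⟩
  obtain ⟨k0, hk0⟩ := (hF.image Sigma.fst).bddAbove
  set k := k0 + 1 with hk
  have hk1 : 1 ≤ k := by omega
  obtain ⟨V, _, G, hG, hord⟩ := ordering k hk1
  obtain ⟨o, ho⟩ := (hP V G).1 hG
  obtain ⟨a, b, ha, hb, hab, haa, hbb, hadj⟩ :=
    hord o (fun i j => i.val = j.val ∨ i.val + 1 = j.val)
  refine odd_not k hk1 ((hP _ _).2 ⟨inferInstance, ?_⟩)
  intro H hH φ hφ hcyc hA
  have hm : H.1 ≤ k0 := hk0 ⟨H, hH, rfl⟩
  obtain ⟨z, hz⟩ : ∃ z, ∀ i, φ i ≠ z := by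
    by_contra hc
    push Not at hc
    have := Fintype.card_le_of_surjective φ hc
    simp at this
    omega
  let E : ℕ → V := fun x => if h : x < k then a ⟨x, h⟩ else
    if h' : x - k < k then b ⟨x - k, h'⟩ else b ⟨0, hk1⟩
  have Elt : ∀ x y, x < y → y < 2 * k → E x < E y := by
    intro x y h1 h2
    simp only [E]
    by_cases c1 : x < k <;> by_cases c2 : y < k
    · rw [dif_pos c1, dif_pos c2]; exact ha h1
    · rw [dif_pos c1, dif_neg c2, dif_pos (by omega)]; exact hab _ _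
    · omega
    · rw [dif_neg c1, dif_neg c2, dif_pos (by omega), dif_pos (by omega)]
      exact hb (by simp only [Fin.lt_def]; omega)
  have Eadj : ∀ x y, x < 2 * k → y < 2 * k →
      (G.Adj (E x) (E y) ↔ (x + k = y ∨ x + k + 1 = y ∨ y + k = x ∨ y + k + 1 = x)) := by
    intro x y h1 h2
    simp only [E]
    by_cases c1 : x < k <;> by_cases c2 : y < k
    · rw [dif_pos c1, dif_pos c2]; simp only [haa, false_iff]; omega
    · rw [dif_pos c1, dif_neg c2, dif_pos (by omega), hadj]; simp only; omega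
    · rw [dif_neg c1, dif_pos c2, dif_pos (by omega), G.adj_comm, hadj]; simp only; omega
    · rw [dif_neg c1, dif_neg c2, dif_pos (by omega), dif_pos (by omega)]
      simp only [hbb, false_iff]; omega
  let ρ : Fin H.1 → ℕ := fun i => if z.val < (φ i).val then (φ i).val - z.val - 1
    else (φ i).val + 2 * k - z.val
  have hρ : ∀ i, (z.val < (φ i).val ∧ ρ i + z.val + 1 = (φ i).val) ∨
      ((φ i).val < z.val ∧ ρ i + z.val = (φ i).val + 2 * k) := by
    intro i
    have h1 : (φ i).val ≠ z.val := fun h => hz i (Fin.ext h)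
    have h2 := z.2
    simp only [ρ]
    split_ifs <;> omega
  have hρ2 : ∀ i, ρ i < 2 * k := by
    intro i
    have := hρ i; have := (φ i).2; have := z.2
    omega
  refine ho H hH (fun i => E (ρ i)) ?_ ?_ ?_
  · intro i j hij
    refine hφ (Fin.ext ?_)
    have h1 := hρ i; have h2 := hρ j; have := (φ i).2; have := (φ j).2; have := z.2
    rcases lt_trichotomy (ρ i) (ρ j) with h | h | h
    · exact absurd hij (Elt _ _ h (hρ2 j)).ne
    · omega
    · exact absurd hij (Elt _ _ h (hρ2 i)).ne'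
  · intro i j l h1 h2
    have h3 : ((φ i).val < φ j ∧ (φ j).val < φ l) ∨ ((φ j).val < φ l ∧ (φ l).val < φ i) ∨
        ((φ l).val < φ i ∧ (φ i).val < φ j) := hcyc i j l h1 h2
    have h4 : (ρ i < ρ j ∧ ρ j < ρ l) ∨ (ρ j < ρ l ∧ ρ l < ρ i) ∨ (ρ l < ρ i ∧ ρ i < ρ j) := by
      have := hρ i; have := hρ j; have := hρ l
      have := (φ i).2; have := (φ j).2; have := (φ l).2; have := z.2
      omega
    rcases h4 with h | h | h
    · exact Or.inl ⟨Elt _ _ h.1 (hρ2 _), Elt _ _ h.2 (hρ2 _)⟩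
    · exact Or.inr (Or.inl ⟨Elt _ _ h.1 (hρ2 _), Elt _ _ h.2 (hρ2 _)⟩)
    · exact Or.inr (Or.inr ⟨Elt _ _ h.1 (hρ2 _), Elt _ _ h.2 (hρ2 _)⟩)
  · intro i j
    rw [hA, Eadj _ _ (hρ2 i) (hρ2 j)]
    have := hρ i; have := hρ j
    have := (φ i).2; have := (φ j).2; have := z.2
    simp only [Odd']
    omega

theorem result :
    (∀ (V W : Type) (G : SimpleGraph V) (H : SimpleGraph W), Nonempty (H ↪g G) →
      G.Colorable 2 → H.Colorable 2) ∧
    (∃ F : Set Pat, F.Finite ∧ ∀ (V : Type) [Fintype V] (G : SimpleGraph V),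
      G.Colorable 2 ↔ LinFree F G) ∧
    ¬ ∃ F : Set Pat, F.Finite ∧ ∀ (V : Type) [Fintype V] (G : SimpleGraph V),
      G.Colorable 2 ↔ CircFree F G :=
  ⟨fun _ _ _ _ ⟨f⟩ h => h.of_hom f.toHom, lin, circ⟩

end Pool.Agent.Results.MP_b6cdd3_co.Bipartite
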